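import Mathlib

set_option autoImplicit false

open Set Topology Cardinal Filter TopologicalSpace

namespace Pool.Agent.Results.MP_56ca39_gt.NoUniversal

/-- the weight: least cardinality of a base -/
noncomputable def weight (X : Type) [TopologicalSpace X] : Cardinal.{0} :=
  sInf {c | ∃ B : Set (Set X), IsTopologicalBasis B ∧ #B = c}

/-- the linear space of continuous real-valued functions, with the subspace topology of the product
`X → ℝ`, which is the topology of pointwise convergence -/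
def Cp (X : Type) [TopologicalSpace X] : Submodule ℝ (X → ℝ) := continuousSubmodule X ℝ ℝ

/-- `Y` is t-embedded in `X`: there is a continuous extender -/
def TEmbedded {X : Type} [TopologicalSpace X] (Y : Set X) : Prop :=
  ∃ φ : Cp Y → Cp X, Continuous φ ∧ ∀ (f : Cp Y) (y : Y), (φ f).1 y.1 = f.1 y

/-- `Y` is l-embedded in `X`: there is a continuous linear extender -/
def LEmbedded {X : Type} [TopologicalSpace X] (Y : Set X) : Prop :=
  ∃ φ : Cp Y →ₗ[ℝ] Cp X, Continuous φ ∧ ∀ (f : Cp Y) (y : Y), (φ f).1 y.1 = f.1 y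

/-- `K` can be t-embedded in `X` -/
def CanTEmbed (K X : Type) [TopologicalSpace K] [TopologicalSpace X] : Prop :=
  ∃ Y : Set X, Nonempty (K ≃ₜ Y) ∧ TEmbedded Y

/-- `K` can be l-embedded in `X` -/
def CanLEmbed (K X : Type) [TopologicalSpace K] [TopologicalSpace X] : Prop :=
  ∃ Y : Set X, Nonempty (K ≃ₜ Y) ∧ LEmbedded Y

/-- there is a compact space of weight `κ` in which all compact spaces of weight at most `κ` can be
l-embedded -/
def LUniversalExists (κ : Cardinal.{0}) : Prop :=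
  ∃ (U : Type) (_ : TopologicalSpace U), CompactSpace U ∧ T2Space U ∧ weight U = κ ∧
    ∀ (K : Type) [TopologicalSpace K], CompactSpace K → T2Space K → weight K ≤ κ → CanLEmbed K U

/-- there is a compact space of weight `κ` in which all compact spaces of weight at most `κ` can be
t-embedded -/
def TUniversalExists (κ : Cardinal.{0}) : Prop :=
  ∃ (U : Type) (_ : TopologicalSpace U), CompactSpace U ∧ T2Space U ∧ weight U = κ ∧
    ∀ (K : Type) [TopologicalSpace K], CompactSpace K → T2Space K → weight K ≤ κ → CanTEmbed K U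

theorem CanLEmbed.canT {K X : Type} [TopologicalSpace K] [TopologicalSpace X]
    (h : CanLEmbed K X) : CanTEmbed K X := by
  obtain ⟨Y, hY, φ, h1, h2⟩ := h
  exact ⟨Y, hY, φ, h1, h2⟩

theorem exists_base (X : Type) [TopologicalSpace X] :
    ∃ B : Set (Set X), IsTopologicalBasis B ∧ #B = weight X :=
  csInf_mem (s := {c | ∃ B : Set (Set X), IsTopologicalBasis B ∧ #B = c})
    ⟨_, {U | IsOpen U}, isTopologicalBasis_opens, rfl⟩

theorem weight_le {X : Type} [TopologicalSpace X] {κ : Cardinal.{0}} (B : Set (Set X))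
    (hB : IsTopologicalBasis B) (h : #B ≤ κ) : weight X ≤ κ := by
  have : #B ∈ {c | ∃ B : Set (Set X), IsTopologicalBasis B ∧ #B = c} := ⟨B, hB, rfl⟩
  exact (csInf_le' this).trans h

/-- neighbourhoods in the topology of pointwise convergence -/
theorem cp_nhds {K : Type} [TopologicalSpace K] (f₀ : Cp K) (N : Set (Cp K)) (hN : N ∈ 𝓝 f₀) :
    ∃ F : Set K, F.Finite ∧ ∃ δ > 0, ∀ f : Cp K, (∀ z ∈ F, |f.1 z - f₀.1 z| < δ) → f ∈ N := by
  classical
  rw [nhds_subtype_eq_comap] at hN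
  obtain ⟨N', hN', hNN'⟩ := hN
  rw [nhds_pi, Filter.mem_pi] at hN'
  obtain ⟨I, hI, t, ht, htN⟩ := hN'
  have hδ : ∀ i, ∃ δ > 0, Metric.ball (f₀.1 i) δ ⊆ t i := fun i => Metric.mem_nhds_iff.1 (ht i)
  choose δ hδ0 hδt using hδ
  have hε : ∀ I : Set K, I.Finite → ∃ ε > 0, ∀ i ∈ I, ε ≤ δ i := by
    intro I hI
    induction I, hI using Set.Finite.induction_on with
    | empty => exact ⟨1, one_pos, by simp⟩
    | @insert a s _ _ ih =>
      obtain ⟨ε, hε, h1⟩ := ih
      refine ⟨min ε (δ a), lt_min hε (hδ0 a), ?_⟩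
      intro i hi
      rcases hi with rfl | hi
      · exact min_le_right _ _
      · exact (min_le_left _ _).trans (h1 i hi)
  obtain ⟨ε, hε, hεI⟩ := hε I hI
  refine ⟨I, hI, ε, hε, ?_⟩
  intro f hf
  apply hNN'
  apply htN
  intro i hi
  apply hδt
  rw [Metric.mem_ball, Real.dist_eq]
  exact (hf i hi).trans_le (hεI i hi)

/-- interpolation on finite sets -/
theorem interp {K : Type} [TopologicalSpace K] [CompactSpace K] [T2Space K] (G : Set K)
    (hG : G.Finite) (τ : K → ℝ) : ∃ f : Cp K, ∀ z ∈ G, f.1 z = τ z := by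
  have : Finite G := hG
  let g : C(G, ℝ) := ⟨fun z => τ z.1, continuous_of_discreteTopology⟩
  obtain ⟨f, hf⟩ := ContinuousMap.exists_restrict_eq hG.isClosed g
  refine ⟨⟨f, f.continuous⟩, ?_⟩
  intro z hz
  have := congrArg (fun h : C(G, ℝ) => h ⟨z, hz⟩) hf
  exact this

/-- the ramp functions -/
noncomputable def ramp (a b t : ℝ) : ℝ := max 0 (min 1 ((t - a) / (b - a)))

theorem ramp_cont (a b : ℝ) : Continuous (ramp a b) := by
  unfold ramp
  exact continuous_const.max (continuous_const.min ((continuous_id.sub continuous_const).div_const _))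

theorem ramp_left {a b t : ℝ} (hab : a < b) (h : t ≤ a) : ramp a b t = 0 := by
  unfold ramp
  apply max_eq_left
  apply (min_le_right _ _).trans
  apply div_nonpos_of_nonpos_of_nonneg <;> linarith

theorem ramp_right {a b t : ℝ} (hab : a < b) (h : b ≤ t) : ramp a b t = 1 := by
  unfold ramp
  have h1 : 1 ≤ (t - a) / (b - a) := by
    rw [le_div_iff₀ (by linarith)]; linarith
  rw [min_eq_left h1]
  exact max_eq_right zero_le_one

theorem rat_low (S : Set ℝ) (hS : S.Finite) (x : ℝ) :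
    ∃ a : ℚ, (a:ℝ) < x ∧ ∀ s ∈ S, s < x → s < a := by
  induction S, hS using Set.Finite.induction_on with
  | empty =>
    obtain ⟨a, ha⟩ := exists_rat_lt x
    exact ⟨a, ha, by simp⟩
  | @insert t S _ _ ih =>
    obtain ⟨a, ha, h1⟩ := ih
    by_cases ht : t < x
    · obtain ⟨c, hc1, hc2⟩ := exists_rat_btwn (max_lt ht ha)
      refine ⟨c, hc2, ?_⟩
      intro s hs hsx
      rcases hs with rfl | hs
      · exact (le_max_left _ _).trans_lt hc1
      · exact (h1 s hs hsx).trans ((le_max_right _ _).trans_lt hc1)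
    · refine ⟨a, ha, ?_⟩
      intro s hs hsx
      rcases hs with rfl | hs
      · exact absurd hsx ht
      · exact h1 s hs hsx

theorem rat_upp (S : Set ℝ) (hS : S.Finite) (x : ℝ) :
    ∃ b : ℚ, x < (b:ℝ) ∧ ∀ s ∈ S, x < s → b < s := by
  obtain ⟨a, ha, h⟩ := rat_low ((fun s => -s) '' S) (hS.image _) (-x)
  refine ⟨-a, by push_cast; linarith, ?_⟩
  intro s hs hsx
  have := h (-s) ⟨s, hs, rfl⟩ (by linarith)
  push_cast; linarith

/-- the key estimate: a continuous functional which is the evaluation at `q` on the ramp functions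
is close to it on the step functions -/
theorem key {K : Type} [TopologicalSpace K] [CompactSpace K] [T2Space K] (π : K → ℝ)
    (x q : ℝ) (hqx : q ≠ x) (χ : Cp K) (h0 : ∀ z, π z < x → χ.1 z = 0)
    (h1 : ∀ z, x < π z → χ.1 z = 1) (H : Cp K → ℝ) (hH : Continuous H)
    (P : ℚ → ℚ → Set K) (ε : ℚ → ℚ → ℝ) (hP : ∀ a b, (P a b).Finite) (hε : ∀ a b, 0 < ε a b)
    (hPH : ∀ a b, ∀ f : Cp K, (∀ z ∈ P a b, |f.1 z - ramp a b (π z)| < ε a b) →
      |H f - ramp a b q| < 1/4)
    (hx : ∀ a b, ∀ z ∈ P a b, π z ≠ x) :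
    |H χ - (if x < q then 1 else 0)| ≤ 1/4 := by
  classical
  by_contra hcon
  push Not at hcon
  have hopen : IsOpen {f : Cp K | 1/4 < |H f - (if x < q then 1 else 0)|} :=
    isOpen_lt continuous_const (hH.sub continuous_const).abs
  obtain ⟨F, hF, δ, hδ, hFδ⟩ := cp_nhds χ _ (hopen.mem_nhds hcon)
  -- rationals close to `x`
  have hfin : (insert q (π '' F)).Finite := (hF.image _).insert _
  have hlow : ∃ a : ℚ, (a:ℝ) < x ∧ (∀ z ∈ F, π z < x → π z < a) ∧ (q < x → q < a) := by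
    obtain ⟨a, ha, h⟩ := rat_low _ hfin x
    exact ⟨a, ha, fun z hz => h _ (mem_insert_of_mem _ ⟨z, hz, rfl⟩), h q (mem_insert _ _)⟩
  have hupp : ∃ b : ℚ, x < (b:ℝ) ∧ (∀ z ∈ F, x < π z → (b:ℝ) < π z) ∧ (x < q → (b:ℝ) < q) := by
    obtain ⟨a, ha, h⟩ := rat_upp _ hfin x
    exact ⟨a, ha, fun z hz => h _ (mem_insert_of_mem _ ⟨z, hz, rfl⟩), h q (mem_insert _ _)⟩
  obtain ⟨a, hax, haF, haq⟩ := hlow
  obtain ⟨b, hxb, hbF, hbq⟩ := hupp
  have hab : (a:ℝ) < b := hax.trans hxb
  have hq : ramp a b q = if x < q then 1 else 0 := by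
    rcases lt_or_gt_of_ne hqx with h | h
    · rw [if_neg (not_lt.2 h.le)]
      exact ramp_left hab (haq h).le
    · rw [if_pos h]
      exact ramp_right hab (hbq h).le
  obtain ⟨f, hf⟩ := interp (F ∪ P a b) (hF.union (hP a b))
    (fun z => if z ∈ F then χ.1 z else ramp a b (π z))
  have hfF : ∀ z ∈ F, f.1 z = χ.1 z := by
    intro z hz
    rw [hf z (Or.inl hz), if_pos hz]
  have hfP : ∀ z ∈ P a b, f.1 z = ramp a b (π z) := by
    intro z hz
    rw [hf z (Or.inr hz)]
    by_cases hzF : z ∈ F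
    · rw [if_pos hzF]
      rcases lt_or_gt_of_ne (hx a b z hz) with h | h
      · rw [h0 z h, ramp_left hab (haF z hzF h).le]
      · rw [h1 z h, ramp_right hab (hbF z hzF h).le]
    · rw [if_neg hzF]
  have e1 : |H f - ramp a b q| < 1/4 := by
    apply hPH
    intro z hz
    rw [hfP z hz, sub_self, abs_zero]
    exact hε a b
  have e2 : 1/4 < |H f - (if x < q then 1 else 0)| := by
    apply hFδ
    intro z hz
    rw [hfF z hz, sub_self, abs_zero]
    exact hδ
  rw [hq] at e1
  exact lt_irrefl _ (e1.trans e2)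

/-- the interval `[0,1]` with the points of `R` split in two -/
def Sp (R : Set ℝ) : Set (ℝ × (R → Bool)) :=
  {p | p.1 ∈ Icc (0:ℝ) 1 ∧ ∀ x : R, (p.2 x = true → x.1 ≤ p.1) ∧ (p.2 x = false → p.1 ≤ x.1)}

theorem Sp.compact (R : Set ℝ) : CompactSpace (Sp R) := by
  rw [← isCompact_iff_compactSpace]
  have h1 : IsCompact (Icc (0:ℝ) 1 ×ˢ (Set.univ : Set (R → Bool))) :=
    isCompact_Icc.prod isCompact_univ
  apply h1.of_isClosed_subset
  · have : Sp R = (Prod.fst ⁻¹' Icc (0:ℝ) 1) ∩ ⋂ x : R,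
        (({p : ℝ × (R → Bool) | p.2 x = false} ∪ {p | x.1 ≤ p.1}) ∩
          ({p : ℝ × (R → Bool) | p.2 x = true} ∪ {p | p.1 ≤ x.1})) := by
      ext p
      simp only [Sp, mem_ofPred_eq, mem_inter_iff, mem_preimage, mem_iInter, mem_union]
      apply and_congr_right
      intro _
      apply forall_congr'
      intro x
      cases h : p.2 x <;> simp
    rw [this]
    apply (isClosed_Icc.preimage continuous_fst).inter
    apply isClosed_iInter
    intro x
    have hx : Continuous (fun p : ℝ × (R → Bool) => p.2 x) := (continuous_apply x).comp continuous_snd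
    apply IsClosed.inter
    · exact ((isClosed_discrete {false}).preimage hx).union
        (isClosed_le continuous_const continuous_fst)
    · exact ((isClosed_discrete {true}).preimage hx).union
        (isClosed_le continuous_fst continuous_const)
  · intro p hp
    exact ⟨hp.1, mem_univ _⟩

/-- the base of the split interval -/
def Sp.base (R : Set ℝ) : Set (Set (Sp R)) :=
  range fun t : ℚ × ℚ × Finset (R × Bool) =>
    {z : Sp R | (t.1:ℝ) < z.1.1 ∧ z.1.1 < t.2.1 ∧ ∀ y ∈ t.2.2, z.1.2 y.1 = y.2}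

theorem Sp.isBase (R : Set ℝ) : IsTopologicalBasis (Sp.base R) := by
  classical
  apply isTopologicalBasis_of_isOpen_of_nhds
  · rintro _ ⟨⟨p, q, F⟩, rfl⟩
    have h1 : Continuous (fun z : Sp R => z.1.1) := continuous_fst.comp continuous_subtype_val
    have h2 : ∀ x, Continuous (fun z : Sp R => z.1.2 x) := fun x =>
      (continuous_apply x).comp (continuous_snd.comp continuous_subtype_val)
    have : {z : Sp R | (p:ℝ) < z.1.1 ∧ z.1.1 < q ∧ ∀ y ∈ F, z.1.2 y.1 = y.2} =
        {z : Sp R | (p:ℝ) < z.1.1} ∩ ({z : Sp R | z.1.1 < q} ∩ ⋂ y ∈ F, {z | z.1.2 y.1 = y.2}) := by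
      ext z; simp
    show IsOpen {z : Sp R | (p:ℝ) < z.1.1 ∧ z.1.1 < q ∧ ∀ y ∈ F, z.1.2 y.1 = y.2}
    rw [this]
    apply (isOpen_lt continuous_const h1).inter
    apply (isOpen_lt h1 continuous_const).inter
    apply isOpen_biInter_finset
    intro y _
    exact (isOpen_discrete {y.2}).preimage (h2 y.1)
  · intro z W hz hW
    obtain ⟨W', hW', rfl⟩ := isOpen_induced_iff.1 hW
    have h3 : W' ∈ 𝓝 z.1 := hW'.mem_nhds hz
    rw [nhds_prod_eq, Filter.mem_prod_iff] at h3
    obtain ⟨A, hA, C, hC, hAC⟩ := h3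
    rw [nhds_pi, Filter.mem_pi] at hC
    obtain ⟨I, hI, t, ht, htC⟩ := hC
    obtain ⟨δ, hδ, hδA⟩ := Metric.mem_nhds_iff.1 hA
    obtain ⟨p, hp1, hp2⟩ := exists_rat_btwn (show z.1.1 - δ < z.1.1 by linarith)
    obtain ⟨q, hq1, hq2⟩ := exists_rat_btwn (show z.1.1 < z.1.1 + δ by linarith)
    refine ⟨_, ⟨⟨p, q, hI.toFinset.image fun x => (x, z.1.2 x)⟩, rfl⟩, ⟨hp2, hq1, ?_⟩, ?_⟩
    · intro y hy
      obtain ⟨x, -, rfl⟩ := Finset.mem_image.1 hy
      rfl
    · rintro w ⟨hw1, hw2, hw3⟩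
      apply hAC
      refine ⟨hδA ?_, htC ?_⟩
      · rw [Metric.mem_ball, Real.dist_eq, abs_lt]
        constructor
        · have : (p:ℝ) < w.1.1 := hw1
          linarith
        · have : w.1.1 < (q:ℝ) := hw2
          linarith
      · intro x hx
        have h4 : w.1.2 x = z.1.2 x := hw3 (x, z.1.2 x) (Finset.mem_image.2 ⟨x, hI.mem_toFinset.2 hx, rfl⟩)
        rw [h4]
        exact mem_of_mem_nhds (ht x)

theorem Sp.weight_le (R : Set ℝ) (κ : Cardinal.{0}) (hκ : ℵ₀ ≤ κ) (hR : #R ≤ κ) :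
    weight (Sp R) ≤ κ := by
  apply _root_.Pool.Agent.Results.MP_56ca39_gt.NoUniversal.weight_le _ (Sp.isBase R)
  apply mk_range_le.trans
  have h1 : #(R × Bool) ≤ κ := by
    rw [mk_prod, lift_id, lift_id]
    exact mul_le_of_le hκ hR ((mk_le_aleph0).trans hκ)
  have h2 : #(Finset (R × Bool)) ≤ κ := by
    rcases finite_or_infinite (R × Bool) with h | h
    · exact (mk_le_aleph0).trans hκ
    · rw [mk_finset_of_infinite]; exact h1
  rw [mk_prod, mk_prod]
  simp only [lift_id]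
  apply mul_le_of_le hκ (mk_le_aleph0.trans hκ)
  exact mul_le_of_le hκ (mk_le_aleph0.trans hκ) h2

/-- the projection -/
def Sp.proj (R : Set ℝ) (z : Sp R) : ℝ := z.1.1

theorem Sp.proj_cont (R : Set ℝ) : Continuous (Sp.proj R) :=
  continuous_fst.comp continuous_subtype_val

open Classical in
/-- a section of the projection -/
noncomputable def Sp.sec (R : Set ℝ) (t : ℝ) (ht : t ∈ Icc (0:ℝ) 1) : Sp R :=
  ⟨(t, fun x => decide (x.1 < t)), ht, fun x => by
    constructor
    · intro h; exact (of_decide_eq_true h).le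
    · intro h; exact not_lt.1 (of_decide_eq_false h)⟩

theorem Sp.proj_sec (R : Set ℝ) (t : ℝ) (ht : t ∈ Icc (0:ℝ) 1) : Sp.proj R (Sp.sec R t ht) = t :=
  rfl

/-- the section is continuous at the points which are not split -/
theorem Sp.sec_cont (R : Set ℝ) (x : Icc (0:ℝ) 1) (hx : x.1 ∉ R) :
    ContinuousAt (fun t : Icc (0:ℝ) 1 => Sp.sec R t.1 t.2) x := by
  classical
  rw [ContinuousAt, tendsto_subtype_rng]
  show Tendsto (fun t : Icc (0:ℝ) 1 => ((t.1, fun y : R => decide (y.1 < t.1)) : ℝ × (R → Bool)))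
    (𝓝 x) (𝓝 (x.1, fun y : R => decide (y.1 < x.1)))
  apply Tendsto.prodMk_nhds
  · exact continuous_subtype_val.tendsto x
  · rw [tendsto_pi_nhds]
    intro y
    have hyx : y.1 ≠ x.1 := fun h => hx (h ▸ y.2)
    have hev : ∀ᶠ t : Icc (0:ℝ) 1 in 𝓝 x, decide (y.1 < t.1) = decide (y.1 < x.1) := by
      have hc := (continuous_subtype_val (p := fun t : ℝ => t ∈ Icc (0:ℝ) 1)).tendsto x
      rcases lt_or_gt_of_ne hyx with h | h
      · filter_upwards [hc.eventually (lt_mem_nhds h)] with t ht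
        have ht' : y.1 < t.1 := ht
        simp [ht', h]
      · filter_upwards [hc.eventually (gt_mem_nhds h)] with t ht
        have ht' : t.1 < y.1 := ht
        rw [decide_eq_false (not_lt.2 ht'.le), decide_eq_false (not_lt.2 h.le)]
    exact tendsto_const_nhds.congr' (hev.mono fun t ht => ht.symm)

/-- the step function at a split point -/
noncomputable def Sp.step (R : Set ℝ) (x : R) : Cp (Sp R) :=
  ⟨fun z => if z.1.2 x = true then 1 else 0, by
    show Continuous _
    have h1 : Continuous (fun z : Sp R => z.1.2 x) :=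
      (continuous_apply x).comp (continuous_snd.comp continuous_subtype_val)
    exact (continuous_of_discreteTopology (f := fun b : Bool => if b = true then (1:ℝ) else 0)).comp h1⟩

theorem Sp.step_left (R : Set ℝ) (x : R) (z : Sp R) (h : Sp.proj R z < x.1) :
    (Sp.step R x).1 z = 0 := by
  have h1 : z.1.2 x ≠ true := fun h2 => absurd ((z.2.2 x).1 h2) (not_le.2 h)
  exact if_neg h1

theorem Sp.step_right (R : Set ℝ) (x : R) (z : Sp R) (h : x.1 < Sp.proj R z) :
    (Sp.step R x).1 z = 1 := by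
  have h1 : z.1.2 x = true := by
    by_contra h2
    exact absurd ((z.2.2 x).2 (Bool.eq_false_iff.2 h2)) (not_le.2 h)
  exact if_pos h1

/-- the ramp functions on the split interval -/
noncomputable def Sp.rampc (R : Set ℝ) (a b : ℚ) : Cp (Sp R) :=
  ⟨fun z => ramp a b (Sp.proj R z), (ramp_cont a b).comp (Sp.proj_cont R)⟩

/-- two split intervals which give the same extensions of the ramp functions are split in the same
points, up to a countable set -/
theorem core {U : Type} [TopologicalSpace U] (R R' : Set ℝ) (hR' : R' ⊆ Ioo 0 1)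
    (e : Sp R → U) (he : Continuous e) (Φ : Cp (Sp R) → Cp U) (hΦe : ∀ f z, (Φ f).1 (e z) = f.1 z)
    (Φ' : Cp (Sp R') → Cp U) (hΦ' : Continuous Φ')
    (heq : ∀ a b : ℚ, Φ (Sp.rampc R a b) = Φ' (Sp.rampc R' a b)) : (R' \ R).Countable := by
  classical
  have := Sp.compact R'
  -- the functionals
  let H : Icc (0:ℝ) 1 → Cp (Sp R') → ℝ := fun q f => (Φ' f).1 (e (Sp.sec R q.1 q.2))
  have hH : ∀ q, Continuous (H q) := fun q =>
    (continuous_apply _).comp (continuous_subtype_val.comp hΦ')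
  have hHr : ∀ q (a b : ℚ), H q (Sp.rampc R' a b) = ramp a b q.1 := by
    intro q a b
    show (Φ' (Sp.rampc R' a b)).1 (e (Sp.sec R q.1 q.2)) = _
    rw [← heq, hΦe]
    rfl
  have hP : ∀ (q : Icc (0:ℝ) 1) (a b : ℚ), ∃ F : Set (Sp R'), F.Finite ∧ ∃ δ > 0,
      ∀ f : Cp (Sp R'), (∀ z ∈ F, |f.1 z - ramp a b (Sp.proj R' z)| < δ) →
        |H q f - ramp a b q.1| < 1/4 := by
    intro q a b
    have hopen : IsOpen {f : Cp (Sp R') | |H q f - ramp a b q.1| < 1/4} :=
      isOpen_lt ((hH q).sub continuous_const).abs continuous_const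
    have hmem : Sp.rampc R' a b ∈ {f : Cp (Sp R') | |H q f - ramp a b q.1| < 1/4} := by
      show |H q (Sp.rampc R' a b) - ramp a b q.1| < 1/4
      rw [hHr, sub_self, abs_zero]; norm_num
    exact cp_nhds _ _ (hopen.mem_nhds hmem)
  choose P hPf ε hε hPH using hP
  let Q : Set (Icc (0:ℝ) 1) := {q | ∃ r : ℚ, (r:ℝ) = q.1}
  have hQ : Q.Countable := by
    have : Function.Injective (fun q : Q => Classical.choose q.2) := by
      intro q q' h
      have h1 := Classical.choose_spec q.2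
      have h2 := Classical.choose_spec q'.2
      have h3 : Classical.choose q.2 = Classical.choose q'.2 := h
      apply Subtype.ext
      apply Subtype.ext
      rw [← h1, ← h2, h3]
    exact this.countable
  have hS : (⋃ q ∈ Q, ⋃ a : ℚ, ⋃ b : ℚ, Sp.proj R' '' (P q a b)).Countable :=
    hQ.biUnion fun q _ => countable_iUnion fun a => countable_iUnion fun b =>
      ((hPf q a b).image _).countable
  apply hS.mono
  rintro x ⟨hxR', hxR⟩
  by_contra hxS
  have hx01 := hR' hxR'
  let χ := Sp.step R' ⟨x, hxR'⟩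
  have hkey : ∀ q ∈ Q, q.1 ≠ x → |H q χ - (if x < q.1 then 1 else 0)| ≤ 1/4 := by
    intro q hq hqx
    apply key (Sp.proj R') x q.1 hqx χ (fun z hz => Sp.step_left R' ⟨x, hxR'⟩ z hz)
      (fun z hz => Sp.step_right R' ⟨x, hxR'⟩ z hz) (H q) (hH q) (P q) (ε q) (hPf q) (hε q) (hPH q)
    intro a b z hz hzx
    apply hxS
    simp only [mem_iUnion]
    exact ⟨q, hq, a, b, z, hz, hzx⟩
  -- continuity at the point which is not split
  let x' : Icc (0:ℝ) 1 := ⟨x, hx01.1.le, hx01.2.le⟩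
  have hcont : ContinuousAt (fun t : Icc (0:ℝ) 1 => H t χ) x' := by
    have h1 : Continuous (fun z => (Φ' χ).1 (e z)) := (Φ' χ).2.comp he
    exact h1.continuousAt.comp (Sp.sec_cont R x' hxR)
  obtain ⟨δ, hδ, hclose⟩ := Metric.continuousAt_iff.1 hcont (1/4) (by norm_num)
  obtain ⟨p, hp1, hp2⟩ := exists_rat_btwn (max_lt (show x - δ < x by linarith) hx01.1)
  obtain ⟨r, hr1, hr2⟩ := exists_rat_btwn (lt_min (show x < x + δ by linarith) hx01.2)
  have hp0 : (0:ℝ) < p := (le_max_right _ _).trans_lt hp1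
  have hr0 : (r:ℝ) < 1 := hr2.trans_le (min_le_right _ _)
  let p' : Icc (0:ℝ) 1 := ⟨p, hp0.le, (hp2.trans hx01.2).le⟩
  let r' : Icc (0:ℝ) 1 := ⟨r, (hx01.1.trans hr1).le, hr0.le⟩
  have e1 := hclose (x := p') (by
    rw [Subtype.dist_eq, Real.dist_eq, abs_lt]
    have := (le_max_left _ _).trans_lt hp1
    show -δ < (p:ℝ) - x ∧ (p:ℝ) - x < δ
    constructor <;> linarith)
  have e2 := hclose (x := r') (by
    rw [Subtype.dist_eq, Real.dist_eq, abs_lt]
    have := hr2.trans_le (min_le_left _ _)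
    show -δ < (r:ℝ) - x ∧ (r:ℝ) - x < δ
    constructor <;> linarith)
  have e3 := hkey p' ⟨p, rfl⟩ hp2.ne
  have e4 := hkey r' ⟨r, rfl⟩ hr1.ne'
  rw [if_neg (show ¬ x < p'.1 from not_lt.2 hp2.le)] at e3
  rw [if_pos (show x < r'.1 from hr1)] at e4
  rw [Real.dist_eq] at e1 e2
  rw [abs_lt] at e1 e2
  rw [abs_le] at e3 e4
  linarith [e1.1, e1.2, e2.1, e2.2, e3.1, e3.2, e4.1, e4.2]

/-- few continuous functions on a compact space of weight at most the continuum -/
theorem code {U : Type} [TopologicalSpace U] [CompactSpace U] (h : weight U ≤ 𝔠) :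
    ∃ Γ : Cp U → (ℚ → ℚ → Finset ℝ), Function.Injective Γ := by
  classical
  obtain ⟨B, hB, hBw⟩ := exists_base U
  have hBc : #B ≤ #ℝ := by rw [hBw, mk_real]; exact h
  obtain ⟨i⟩ := (le_def _ _).1 hBc
  have hG : ∀ (f : Cp U) (p q : ℚ), ∃ G : Finset B, p < q →
      (∀ u, f.1 u ≤ p → ∃ b ∈ G, u ∈ b.1) ∧ (∀ u, ∀ b ∈ G, u ∈ b.1 → f.1 u < q) := by
    intro f p q
    by_cases hpq : p < q
    · have hpq' : (p:ℝ) < q := by exact_mod_cast hpq
      have hK : IsCompact {u | f.1 u ≤ p} := (isClosed_le f.2 continuous_const).isCompact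
      have hO : IsOpen {u | f.1 u < q} := isOpen_lt f.2 continuous_const
      let c : {b : B // b.1 ⊆ {u | f.1 u < q}} → Set U := fun b => b.1.1
      obtain ⟨G, hG⟩ := hK.elim_finite_subcover c (fun b => hB.isOpen b.1.2) (by
        intro u hu
        have hu' : u ∈ {u | f.1 u < q} := lt_of_le_of_lt (show f.1 u ≤ p from hu) hpq'
        obtain ⟨b, hb, hub, hbO⟩ := hB.exists_subset_of_mem_open hu' hO
        exact mem_iUnion.2 ⟨⟨⟨b, hb⟩, hbO⟩, hub⟩)
      refine ⟨G.image fun b => b.1, fun _ => ⟨?_, ?_⟩⟩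
      · intro u hu
        obtain ⟨b, hb, hub⟩ := mem_iUnion₂.1 (hG hu)
        exact ⟨b.1, Finset.mem_image_of_mem _ hb, hub⟩
      · intro u b hb hub
        obtain ⟨b', -, rfl⟩ := Finset.mem_image.1 hb
        exact b'.2 hub
    · exact ⟨∅, fun h => absurd h hpq⟩
  choose G hG using hG
  refine ⟨fun f p q => (G f p q).map i, ?_⟩
  have main : ∀ f g : Cp U, (∀ p q, G f p q = G g p q) → ∀ u, g.1 u ≤ f.1 u := by
    intro f g hfg u
    by_contra hlt
    push Not at hlt
    obtain ⟨p, hp1, hp2⟩ := exists_rat_btwn hlt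
    obtain ⟨q, hq1, hq2⟩ := exists_rat_btwn hp2
    have hpq : p < q := by exact_mod_cast hq1
    obtain ⟨b, hb, hub⟩ := (hG f p q hpq).1 u hp1.le
    rw [hfg] at hb
    exact absurd ((hG g p q hpq).2 u b hb hub) (not_lt.2 hq2.le)
  intro f g hfg
  have h1 : ∀ p q, G f p q = G g p q := by
    intro p q
    exact Finset.map_injective i (congrFun (congrFun hfg p) q)
  apply Subtype.ext
  funext u
  exact le_antisymm (main g f (fun p q => (h1 p q).symm) u) (main f g h1 u)

theorem noT (κ : Cardinal.{0}) (hκc : κ ≤ 𝔠) (hκ : 𝔠 < 2 ^ κ) (U : Type) [TopologicalSpace U]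
    [CompactSpace U] (hU : weight U ≤ 𝔠) :
    ∃ R : Set ℝ, weight (Sp R) ≤ κ ∧ ¬ CanTEmbed (Sp R) U := by
  classical
  have hκ0 : ℵ₀ < κ := by
    by_contra hcon
    push Not at hcon
    have : (2:Cardinal.{0}) ^ κ ≤ 2 ^ ℵ₀ := power_le_power_left two_ne_zero hcon
    rw [two_power_aleph0] at this
    exact absurd (hκ.trans_le this) (lt_irrefl _)
  -- the index set
  let I : Type := κ.out
  have hI : #I = κ := mk_out κ
  have hII : #(I × I) ≤ #(Ioo (0:ℝ) 1) := by
    rw [mk_prod, Cardinal.lift_id, hI, mul_eq_self hκ0.le, mk_Ioo_real (zero_lt_one)]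
    exact hκc
  obtain ⟨j⟩ := (le_def _ _).1 hII
  let R : Set I → Set ℝ := fun A => (fun t : I × I => (j t).1) '' {t | t.1 ∈ A}
  have hR01 : ∀ A, R A ⊆ Ioo 0 1 := by
    rintro A _ ⟨t, -, rfl⟩
    exact (j t).2
  have hRκ : ∀ A, #(R A) ≤ κ := by
    intro A
    apply mk_image_le.trans
    apply (mk_set_le _).trans
    rw [mk_prod, Cardinal.lift_id, hI, mul_eq_self hκ0.le]
  by_contra hcon
  push Not at hcon
  have hT : ∀ A, CanTEmbed (Sp (R A)) U := fun A => hcon (R A) (Sp.weight_le _ κ hκ0.le (hRκ A))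
  have hdata : ∀ A, ∃ e : Sp (R A) → U, Continuous e ∧ ∃ Φ : Cp (Sp (R A)) → Cp U, Continuous Φ ∧
      ∀ f z, (Φ f).1 (e z) = f.1 z := by
    intro A
    obtain ⟨Y, ⟨i⟩, φ, hφ, hφe⟩ := hT A
    let tr : Cp (Sp (R A)) → Cp Y := fun f => ⟨fun y => f.1 (i.symm y), f.2.comp i.symm.continuous⟩
    have htr : Continuous tr := by
      apply Continuous.subtype_mk
      exact continuous_pi fun y => (continuous_apply (i.symm y)).comp continuous_subtype_val
    refine ⟨fun z => (i z).1, continuous_subtype_val.comp i.continuous, fun f => φ (tr f),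
      hφ.comp htr, ?_⟩
    intro f z
    rw [hφe]
    show f.1 (i.symm (i z)) = f.1 z
    rw [i.symm_apply_apply]
  choose e he Φ hΦ hΦe using hdata
  obtain ⟨Γ, hΓ⟩ := code hU
  let Ψ : Set I → (ℚ → ℚ → ℚ → ℚ → Finset ℝ) := fun A a b => Γ (Φ A (Sp.rampc (R A) a b))
  have hΨ : Function.Injective Ψ := by
    have half : ∀ A A', Ψ A = Ψ A' → A' ⊆ A := by
      intro A A' hAA' u hu
      by_contra huA
      have heq : ∀ a b : ℚ, Φ A (Sp.rampc (R A) a b) = Φ A' (Sp.rampc (R A') a b) := fun a b =>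
        hΓ (congrFun (congrFun hAA' a) b)
      have hc := core (R A) (R A') (hR01 A') (e A) (he A) (Φ A) (hΦe A) (Φ A') (hΦ A') heq
      have hsub : (fun v : I => (j (u, v)).1) '' Set.univ ⊆ R A' \ R A := by
        rintro _ ⟨v, -, rfl⟩
        refine ⟨⟨(u, v), hu, rfl⟩, ?_⟩
        rintro ⟨t, ht, htv⟩
        have h1 : t = (u, v) := j.injective (Subtype.ext htv)
        rw [h1] at ht
        exact huA ht
      have hc' : (Set.univ : Set I).Countable := by
        apply countable_of_injective_of_countable_image _ (hc.mono hsub)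
        intro v _ v' _ hvv
        have h1 : (u, v) = (u, v') := j.injective (Subtype.ext hvv)
        exact (Prod.mk.inj h1).2
      rw [← le_aleph0_iff_set_countable, mk_univ, hI] at hc'
      exact absurd hκ0 (not_lt.2 hc')
    intro A A' h
    exact Subset.antisymm (half A' A h.symm) (half A A' h)
  have hcard : #(Set I) ≤ #(ℚ → ℚ → ℚ → ℚ → Finset ℝ) := mk_le_of_injective hΨ
  have hfin : #(Finset ℝ) = 𝔠 := by rw [mk_finset_of_infinite, mk_real]
  have hstep : ∀ T : Type, #T = 𝔠 → #(ℚ → T) = 𝔠 := by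
    intro T hT
    rw [← power_def, hT, Cardinal.mkRat, continuum_power_aleph0]
  have h4 : #(ℚ → ℚ → ℚ → ℚ → Finset ℝ) = 𝔠 := hstep _ (hstep _ (hstep _ (hstep _ hfin)))
  rw [h4, mk_set, hI] at hcard
  exact absurd hκ (not_lt.2 hcard)

/-- **Theorem.** There are no universal compacta for l-embeddings or for t-embeddings in weight
`κ` for any `κ ≤ 𝔠 < 2 ^ κ`, in particular for `κ = 𝔠`; so the answer to both questions is
negative. -/
theorem result :
    (¬ ∀ κ : Cardinal.{0}, ℵ₀ ≤ κ → LUniversalExists κ) ∧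
    (¬ ∀ κ : Cardinal.{0}, ℵ₀ ≤ κ → TUniversalExists κ) ∧
    (∀ κ : Cardinal.{0}, κ ≤ 𝔠 → 𝔠 < 2 ^ κ → ¬ LUniversalExists κ ∧ ¬ TUniversalExists κ) := by
  have main : ∀ κ : Cardinal.{0}, κ ≤ 𝔠 → 𝔠 < 2 ^ κ →
      ¬ LUniversalExists κ ∧ ¬ TUniversalExists κ := by
    intro κ h1 h2
    have hT : ¬ TUniversalExists κ := by
      rintro ⟨U, _, hUc, -, hUw, hU⟩
      obtain ⟨R, hR, hRU⟩ := noT κ h1 h2 U (hUw.le.trans h1)
      exact hRU (hU (Sp R) (Sp.compact R) inferInstance hR)
    refine ⟨?_, hT⟩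
    rintro ⟨U, tU, hUc, hU2, hUw, hU⟩
    exact hT ⟨U, tU, hUc, hU2, hUw, fun K _ hK1 hK2 hK3 => (hU K hK1 hK2 hK3).canT⟩
  have hc := main 𝔠 le_rfl (cantor 𝔠)
  exact ⟨fun h => hc.1 (h 𝔠 aleph0_le_continuum), fun h => hc.2 (h 𝔠 aleph0_le_continuum), main⟩

end Pool.Agent.Results.MP_56ca39_gt.NoUniversal
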